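import Pool.Agent.Helper67.KPG.St3
import Pool.Agent.Helper67.KPG.St2

/-!
Project KP, module BSX: a basis of `g_(≤ -1) + g_(≥ 2)`.
-/

set_option autoImplicit false

namespace Pool.Agent.Helper29.KPG

open Pool.Agent.Helper67.NO Pool.Agent.Helper52.KP Pool.Agent.Helper67.KPG

universe u

private theorem bsx_rep {g : Type u} [AddCommGroup g] [Module ℂ g] (P : Submodule ℂ g) {p : ℕ}
    (b : Module.Basis (Fin p) ℂ P) (u : g) (hu : u ∈ P) :
    ∑ i, b.repr ⟨u, hu⟩ i • (b i : g) = u := by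
  have h1 := congrArg P.subtype (b.sum_repr ⟨u, hu⟩)
  rw [map_sum] at h1
  simp only [map_smul, Submodule.subtype_apply] at h1
  exact h1

theorem hBSX : StBAS.{u} → StBAE.{u} → StBSX.{u} := by
  intro hBAS hBAE g _ _ _ e h f N pr hSl
  have hF := hBAS g e h f N pr hSl
  have hE := hBAE g e h f N pr hSl
  obtain ⟨P, hP⟩ : ∃ P, P = le pr (-1) := ⟨_, rfl⟩
  obtain ⟨Q, hQ⟩ : ∃ Q, Q = ge pr 2 := ⟨_, rfl⟩
  have hdim := hE.dim
  rw [← hP, ← hQ] at hdim
  obtain ⟨bP⟩ : Nonempty (Module.Basis (Fin (Module.finrank ℂ P)) ℂ P) := ⟨Module.finBasis ℂ P⟩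
  obtain ⟨bQ⟩ : Nonempty (Module.Basis (Fin (Module.finrank ℂ Q)) ℂ Q) := ⟨Module.finBasis ℂ Q⟩
  have hdis : Disjoint P Q := by
    have h1 := (hF.cpl 0).disjoint
    have h2 : ge pr 2 ≤ ge pr 0 := hF.gemono 0 2 (by norm_num)
    have h3 : le pr (0 - 1) = le pr (-1) := by norm_num
    rw [h3] at h1
    rw [hP, hQ]
    exact (h1.mono_left h2).symm
  obtain ⟨E, hEd⟩ : ∃ E : Fin (Module.finrank ℂ P + Module.finrank ℂ Q) → g,
      E = Fin.append (fun i => (bP i : g)) (fun j => (bQ j : g)) := ⟨_, rfl⟩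
  obtain ⟨w, hw⟩ : ∃ w : Fin (Module.finrank ℂ P + Module.finrank ℂ Q) → ℕ,
      w = Fin.append (fun _ => 0) (fun _ => 1) := ⟨_, rfl⟩
  have hEl : ∀ i, E (Fin.castAdd _ i) = bP i := fun i => by rw [hEd, Fin.append_left]
  have hEr : ∀ i, E (Fin.natAdd _ i) = bQ i := fun i => by rw [hEd, Fin.append_right]
  have hwl : ∀ i, w (Fin.castAdd _ i) = 0 := fun i => by rw [hw, Fin.append_left]
  have hwr : ∀ i, w (Fin.natAdd _ i) = 1 := fun i => by rw [hw, Fin.append_right]
  refine ⟨Module.finrank ℂ P + Module.finrank ℂ Q, w, E, ?_⟩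
  refine ⟨hdim, ?_, ?_, ?_, ?_, ?_⟩
  · intro j
    refine Fin.addCases (fun i => Or.inl (hwl i)) (fun i => Or.inr (hwr i)) j
  · have hl1 : LinearIndependent ℂ (fun i => (bP i : g)) :=
      bP.linearIndependent.map' P.subtype (Submodule.ker_subtype P)
    have hl2 : LinearIndependent ℂ (fun i => (bQ i : g)) :=
      bQ.linearIndependent.map' Q.subtype (Submodule.ker_subtype Q)
    have hs1 : Submodule.span ℂ (Set.range fun i => (bP i : g)) ≤ P := by
      rw [Submodule.span_le]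
      rintro _ ⟨i, rfl⟩
      exact (bP i).2
    have hs2 : Submodule.span ℂ (Set.range fun i => (bQ i : g)) ≤ Q := by
      rw [Submodule.span_le]
      rintro _ ⟨i, rfl⟩
      exact (bQ i).2
    have hl := hl1.sum_type hl2 (hdis.mono hs1 hs2)
    have hc := hl.comp finSumFinEquiv.symm finSumFinEquiv.symm.injective
    have he : (Sum.elim (fun i => (bP i : g)) (fun i => (bQ i : g))) ∘ finSumFinEquiv.symm = E := by
      funext j
      refine Fin.addCases (fun i => ?_) (fun i => ?_) j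
      · rw [hEl]
        simp
      · rw [hEr]
        simp
    rw [← he]
    exact hc
  · intro j
    refine Fin.addCases (fun i _ => ?_) (fun i h0 => ?_) j
    · rw [hEl, ← hP]
      exact (bP i).2
    · rw [hwr] at h0
      exact absurd h0 one_ne_zero
  · intro j
    refine Fin.addCases (fun i h0 => ?_) (fun i _ => ?_) j
    · rw [hwl] at h0
      exact absurd h0 zero_ne_one
    · rw [hEr, ← hQ]
      exact (bQ i).2
  · intro u hu y hy
    rw [← hP] at hu
    rw [← hQ] at hy
    refine ⟨Fin.append (fun i => bP.repr ⟨u, hu⟩ i) (fun i => bQ.repr ⟨y, hy⟩ i), ?_, ?_⟩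
    · unfold uu
      rw [Fin.sum_univ_add]
      simp only [hEl, hEr, hwl, hwr, Fin.append_left, if_true, one_ne_zero, if_false,
        Finset.sum_const_zero, add_zero]
      exact (bsx_rep P bP u hu).symm
    · unfold yy
      rw [Fin.sum_univ_add]
      simp only [hEl, hEr, hwl, hwr, Fin.append_right, if_true, zero_ne_one, if_false,
        Finset.sum_const_zero, zero_add]
      exact (bsx_rep Q bQ y hy).symm

end Pool.Agent.Helper29.KPG
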